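import Pool.Agent.J6H86.KS.Main

/-!
# MP_31a675_nt : the Kawaguchi–Silverman conjecture for skew products over a translation

`K` is a number field and `f (t, y) = (t + 1, F (t, y))` a polynomial map of the affine space of
dimension `1 + k`, where `F (t, ·)` is for generic `t` a regular polynomial map of degree `d ≥ 2`:
its part of degree `d` in `y` has no common zero except `0` over an algebraic closure of `K(t)`.
We show: the degree of `f^n` is between `d ^ n` and `C d ^ n`, so the first dynamical degree is `d`;
for each point `x` with coordinates in `K` the limit `c` of `h (f^n x) / d ^ n` exists; if `c > 0` the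
arithmetic degree of `x` is `d`; if `c = 0` then `h (f^n x) = O (log n)`, the coordinates of `f^n x` are
polynomials in `n` on residue classes, and the orbit is not Zariski dense.
-/

set_option autoImplicit false

namespace Pool.Agent.Results.MP_31a675_nt.TranslationSkewProducts

open MvPolynomial Filter Topology Height
open Pool.Agent.J6H86.KS (Regular skew iter hgt)
open scoped Polynomial

/-- **The Kawaguchi–Silverman conjecture for skew products over a translation.** -/
theorem result {K : Type} [Field K] [NumberField K] {k d : ℕ} (hk : 1 ≤ k) (hd : 2 ≤ d)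
    (F : Fin k → MvPolynomial (Fin k) K[X]) (hF : Regular d F) :
    -- the degrees of the iterates: the first dynamical degree is `d`
    (∃ C : ℕ, ∀ n, (∀ a, (iter (skew F) n a).totalDegree ≤ C * d ^ n) ∧
      ∃ a, d ^ n ≤ (iter (skew F) n a).totalDegree) ∧
    -- the orbits of the points with coordinates in `K`
    ∀ x : ℕ → Option (Fin k) → K, (∀ n a, x (n + 1) a = eval (x n) (skew F a)) →
      ∃ c : ℝ, Tendsto (fun n => hgt (x n) / (d : ℝ) ^ n) atTop (𝓝 c) ∧
        ((0 < c ∧ Tendsto (fun n : ℕ => (max (hgt (x n)) 1) ^ (1 / (n : ℝ))) atTop (𝓝 (d : ℝ))) ∨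
        (c = 0 ∧ (∃ (B : ℝ) (n₁ : ℕ), ∀ n ≥ n₁, hgt (x n) ≤ B * Real.log ((n : ℝ) + 2)) ∧
          (∃ M > 0, ∃ n₀ : ℕ, ∀ i a, ∃ P : K[X], ∀ n ≥ n₀, x (M * n + i) a = P.eval (n : K)) ∧
          ∃ G : MvPolynomial (Option (Fin k)) K, G ≠ 0 ∧ ∀ n, eval (x n) G = 0)) := by
  obtain ⟨C, hC⟩ := Pool.Agent.J6H86.KS.deg_upper hd F hF.1
  refine ⟨⟨C, fun n => ⟨hC n, Pool.Agent.J6H86.KS.deg_lower hk hd F hF n⟩⟩, fun x hx => ?_⟩
  have ht : ∀ n, x n none = x 0 none + (n : K) := by
    intro n
    induction n with
    | zero => simp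
    | succ n ih =>
      rw [hx]
      change eval (x n) (X none + 1) = _
      rw [map_add, eval_X, map_one, ih]
      push_cast
      ring
  have hy : ∀ n j, x (n + 1) (some j) =
      eval (fun i => x n (some i)) (map (Polynomial.evalRingHom (x 0 none + n)) (F j)) := by
    intro n j
    rw [hx]
    change eval (x n) (Pool.Agent.J6H86.KS.toAff (F j)) = _
    rw [← coe_aeval_eq_eval (x n), RingHom.coe_coe, Pool.Agent.J6H86.KS.hom_toAff, eval_map, ht n]
    rfl
  have hxy : ∀ n, x n = fun a => a.elim (x 0 none + (n : K)) fun i => x n (some i) := by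
    intro n
    funext a
    cases a with
    | none => exact ht n
    | some i => rfl
  obtain ⟨c, hc, hcase⟩ := Pool.Agent.J6H86.KS.main hd F hF (x 0 none) (fun n i => x n (some i)) hy
    x hxy
  refine ⟨c, hc, hcase.imp_right fun h => ⟨h.1, h.2.1, ?_, ?_⟩⟩
  · obtain ⟨M, hM, n₀, h0⟩ := h.2.2
    refine ⟨M, hM, n₀, fun i a => ?_⟩
    cases a with
    | none =>
      refine ⟨Polynomial.C (M : K) * Polynomial.X + Polynomial.C (x 0 none + (i : K)),
        fun n _ => ?_⟩
      rw [ht]
      simp
      ring
    | some j => exact h0 i j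
  · exact Pool.Agent.J6H86.KS.not_dense hk (x 0 none) (fun n i => x n (some i)) x hxy h.2.2

end Pool.Agent.Results.MP_31a675_nt.TranslationSkewProducts
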